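import Pool.Agent.Helper14.TH7.StD

/-!
# Project TH, prime 7, module Tri: triangular system of symbols modulo 7
-/

set_option autoImplicit false

namespace Pool.Agent.Helper36.TH7

open Pool.Agent.Helper14.TH7
open Pool.Agent.Helper84.S7
open Pool.Agent.Helper93.TLH (SymH)

section main

variable {r s : ℕ}

/-- The value only depends on the leading form. -/
private theorem lead_Tri (hl : S7Low0) (O : Module.End (ZMod 7) (Fn7 (7 ^ r) (7 ^ s)))
    (k : ℤ) (hO : Lw O k) (F L : Fn7 (7 ^ r) (7 ^ s)) (h : F - L ∈ Wd7 (k - 1)) :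
    O F = O L := by
  have h1 := hO _ _ h
  have h2 : k - 1 - k = -1 := by ring
  rw [h2] at h1
  have h3 := (hl r s).2.2.2.2.2.2.2.2.2.2.2.2.2 _ h1
  rw [map_sub] at h3
  exact sub_eq_zero.1 h3

/-- The value at the origin of a word on a binomial function. -/
private def W_Tri (r s c' i' j' : ℕ) (f : Fin 3) (A' B' : ℕ) : ZMod 7 :=
  ((MoH c' f.val * QoH ^ i' * LoH ^ j' : Module.End (ZMod 7) (Fn7 (7 ^ r) (7 ^ s))) (bb7 A' B')) 0 0

end main

private theorem dg_Tri (c i j : ℕ) :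
    dgH c i j = (aaH c + i + 7 * j) + (abH c + i + j) := by
  unfold dgH
  ring

/-- The exponents. -/
private theorem ab_Tri (c : ℕ) (hc : c ≤ 5) :
    (c = 0 ∧ aaH c = 0 ∧ abH c = 0 ∧ aeH c = 0) ∨ (c = 1 ∧ aaH c = 0 ∧ abH c = 0 ∧ aeH c = 0) ∨
    (c = 2 ∧ aaH c = 2 ∧ abH c = 0 ∧ aeH c = 2) ∨ (c = 3 ∧ aaH c = 3 ∧ abH c = 0 ∧ aeH c = 3) ∨
    (c = 4 ∧ aaH c = 3 ∧ abH c = 1 ∧ aeH c = 4) ∨ (c = 5 ∧ aaH c = 5 ∧ abH c = 1 ∧ aeH c = 5) := by
  interval_cases c <;> simp [aaH, abH, aeH]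

/-- The lowest exponents and the vanishing forms. -/
private theorem lw_Tri (c : ℕ) (hc : c ≤ 5) :
    (c = 0 → lwH c (0 : Fin 3).val = 0 ∧ qOH c (1 : Fin 3).val (lwH c (1 : Fin 3).val) = 0 ∧
      qOH c (2 : Fin 3).val (lwH c (2 : Fin 3).val) = 0) ∧
    (c = 1 → lwH c (1 : Fin 3).val = 0 ∧ qOH c (0 : Fin 3).val (lwH c (0 : Fin 3).val) = 0 ∧
      qOH c (2 : Fin 3).val (lwH c (2 : Fin 3).val) = 0) ∧
    (c = 2 → lwH c (0 : Fin 3).val = 0 ∧ lwH c (1 : Fin 3).val = 0 ∧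
      qOH c (2 : Fin 3).val (lwH c (2 : Fin 3).val) = 0) ∧
    (c = 3 → lwH c (2 : Fin 3).val = 0 ∧ qOH c (0 : Fin 3).val (lwH c (0 : Fin 3).val) = 0 ∧
      qOH c (1 : Fin 3).val (lwH c (1 : Fin 3).val) = 0) ∧
    (c = 4 → lwH c (0 : Fin 3).val = 2 ∧ lwH c (1 : Fin 3).val = 1 ∧
      qOH c (2 : Fin 3).val (lwH c (2 : Fin 3).val) = 0) ∧
    (c = 5 → lwH c (0 : Fin 3).val = 2 ∧ lwH c (1 : Fin 3).val = 1 ∧
      qOH c (2 : Fin 3).val (lwH c (2 : Fin 3).val) = 0) := by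
  refine ⟨?_, ?_, ?_, ?_, ?_, ?_⟩ <;> rintro rfl <;> decide

/-- TRI. -/
theorem hTri (hl : S7Low0) (hb : S7Bb) (hd : TLed) (hx : TEx) (hi : TItr) (hf : TTrf) :
    TTri := by
  intro r s c i j hc hr hs
  obtain ⟨F, hRel, hF⟩ := hd r s c i j hc hr hs
  obtain ⟨G, hG, hGF⟩ := hx (ZMod 7) inferInstance r s F hRel
  obtain ⟨A, hA⟩ : ∃ A, A = aaH c + i + 7 * j := ⟨_, rfl⟩
  obtain ⟨B, hB⟩ : ∃ B, B = abH c + i + j := ⟨_, rfl⟩
  have hdg : dgH c i j = A + B := by rw [dg_Tri, hA, hB]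
  have hrh : rhH c i j = B := by rw [hB]; rfl
  rw [← hA, ← hB] at hF
  rw [← hB] at hs
  have hAr : A < 7 ^ r ∧ (c = 4 → A + 1 < 7 ^ r ∧ 1 ≤ B) := by
    rcases ab_Tri c hc with ⟨h0, h1, h2, h3⟩ | ⟨h0, h1, h2, h3⟩ | ⟨h0, h1, h2, h3⟩ |
      ⟨h0, h1, h2, h3⟩ | ⟨h0, h1, h2, h3⟩ | ⟨h0, h1, h2, h3⟩ <;>
    rw [h3] at hr <;> rw [h1] at hA <;> rw [h2] at hB <;> omega
  have hbb : (bb7 A B : Fn7 (7 ^ r) (7 ^ s)) ∈ Wd7 ((A : ℤ) + B) := (hb r s).1 A B hAr.1 hs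
  have hbb4 : c = 4 → (bb7 (A + 1) (B - 1) : Fn7 (7 ^ r) (7 ^ s)) ∈ Wd7 ((A : ℤ) + B) := by
    intro h
    have h1 := (hb r s).1 (A + 1) (B - 1) (hAr.2 h).1 (by omega)
    have h2 : ((A + 1 : ℕ) : ℤ) + ((B - 1 : ℕ) : ℤ) = (A : ℤ) + B := by
      have := (hAr.2 h).2
      omega
    rw [h2] at h1
    exact h1
  have htp : ∀ f : Fin 3, (tpH c A B f : Fn7 (7 ^ r) (7 ^ s)) ∈ Wd7 ((A : ℤ) + B) := by
    intro f
    unfold tpH
    split_ifs with q1 q2 q3 q4 q5 q6 q7 q8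
    all_goals first
      | exact hbb
      | exact Submodule.zero_mem _
      | exact Submodule.neg_mem _ hbb
      | exact Submodule.add_mem _ (Submodule.smul_mem _ _ hbb) (Submodule.smul_mem _ _ (hbb4 (by assumption)))
  have hdz : ((A + B : ℕ) : ℤ) = (A : ℤ) + B := by push_cast; ring
  have hF' : ∀ f : Fin 3, F f - tpH c A B f ∈ Wd7 ((A : ℤ) + B - 1) := by
    intro f
    have h := hF f
    rw [hdg, hdz] at h
    exact h
  have hFd : ∀ f : Fin 3, F f ∈ Wd7 ((A : ℤ) + B) := by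
    intro f
    have h1 : F f = (F f - tpH c A B f) + tpH c A B f := by rw [sub_add_cancel]
    rw [h1]
    exact Submodule.add_mem _ ((hl r s).2.2.2.2.1 _ _ (by omega) (hF' f)) (htp f)
  have hI := hi r s G (A + B) hG (fun f => by rw [hGF f, hdz]; exact hFd f)
  have hval : ∀ c' i' j' : ℕ, c' ≤ 5 → dgH c' i' j' = A + B →
      evH (7 ^ r) G c' i' j' = ∑ f : Fin 3,
        ((MoH c' f.val * QoH ^ i' * LoH ^ j' : Module.End (ZMod 7) (Fn7 (7 ^ r) (7 ^ s)))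
          (tpH c A B f)) 0 0 := by
    intro c' i' j' hc' h
    rw [(hI c' i' j' hc').2 h]
    refine Finset.sum_congr rfl fun f _ => ?_
    rw [hGF f]
    have h1 := (hf r s).1 c' i' j' f hc'
    rw [h, hdz] at h1
    rw [lead_Tri hl _ _ h1 (F f) (tpH c A B f) (hF' f)]
  have hN : ∀ (c' i' j' : ℕ) (f : Fin 3) (x : Fn7 (7 ^ r) (7 ^ s)), c' ≤ 5 →
      qOH c' f.val (lwH c' f.val) = 0 →
      ((MoH c' f.val * QoH ^ i' * LoH ^ j' : Module.End (ZMod 7) (Fn7 (7 ^ r) (7 ^ s))) x) 0 0 = 0 := by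
    intro c' i' j' f x hc' h
    rw [(hf r s).2.1 c' f hc' h, zero_mul, zero_mul]
    rfl
  have hZ : ∀ (c' i' j' A' B' : ℕ) (f : Fin 3), c' ≤ 5 → A' < 7 ^ r → B' < 7 ^ s →
      A' + B' = dgH c' i' j' → (B' < i' + j' + lwH c' f.val ∨ qOH c' f.val (lwH c' f.val) = 0) →
      W_Tri r s c' i' j' f A' B' = 0 := by
    intro c' i' j' A' B' f hc' hA' hB' h h'
    rcases h' with h' | h'
    · exact ((hf r s).2.2 c' i' j' A' B' f hc' hA' hB' h).1 h'
    · exact hN c' i' j' f _ hc' h'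
  have hE : ∀ (c' i' j' A' B' : ℕ) (f : Fin 3), c' ≤ 5 → A' < 7 ^ r → B' < 7 ^ s →
      A' + B' = dgH c' i' j' → B' = i' + j' + lwH c' f.val →
      W_Tri r s c' i' j' f A' B' = ((qOH c' f.val (lwH c' f.val) : ℤ) : ZMod 7) := by
    intro c' i' j' A' B' f hc' hA' hB' h h'
    exact ((hf r s).2.2 c' i' j' A' B' f hc' hA' hB' h).2 h'
  -- the values
  have s0 : c = 0 ∨ c = 2 → ∀ c' i' j' : ℕ, c' ≤ 5 → dgH c' i' j' = A + B →
      evH (7 ^ r) G c' i' j' = W_Tri r s c' i' j' 0 A B := by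
    intro h c' i' j' hc' h'
    rw [hval c' i' j' hc' h', Fin.sum_univ_three]
    have t0 : (tpH c A B 0 : Fn7 (7 ^ r) (7 ^ s)) = bb7 A B := by simp [tpH, h]
    have t1 : (tpH c A B 1 : Fn7 (7 ^ r) (7 ^ s)) = 0 := by simp [tpH, h]
    have t2 : (tpH c A B 2 : Fn7 (7 ^ r) (7 ^ s)) = 0 := by simp [tpH, h]
    rw [t0, t1, t2, map_zero, map_zero]
    simp [W_Tri]
  have s1 : c = 1 → ∀ c' i' j' : ℕ, c' ≤ 5 → dgH c' i' j' = A + B →
      evH (7 ^ r) G c' i' j' = W_Tri r s c' i' j' 1 A B := by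
    intro h c' i' j' hc' h'
    rw [hval c' i' j' hc' h', Fin.sum_univ_three]
    have t0 : (tpH c A B 0 : Fn7 (7 ^ r) (7 ^ s)) = 0 := by simp [tpH, h]
    have t1 : (tpH c A B 1 : Fn7 (7 ^ r) (7 ^ s)) = bb7 A B := by simp [tpH, h]
    have t2 : (tpH c A B 2 : Fn7 (7 ^ r) (7 ^ s)) = 0 := by simp [tpH, h]
    rw [t0, t1, t2, map_zero, map_zero]
    simp [W_Tri]
  have s3 : c = 3 → ∀ c' i' j' : ℕ, c' ≤ 5 → dgH c' i' j' = A + B →
      evH (7 ^ r) G c' i' j' = W_Tri r s c' i' j' 2 A B := by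
    intro h c' i' j' hc' h'
    rw [hval c' i' j' hc' h', Fin.sum_univ_three]
    have t0 : (tpH c A B 0 : Fn7 (7 ^ r) (7 ^ s)) = 0 := by simp [tpH, h]
    have t1 : (tpH c A B 1 : Fn7 (7 ^ r) (7 ^ s)) = 0 := by simp [tpH, h]
    have t2 : (tpH c A B 2 : Fn7 (7 ^ r) (7 ^ s)) = bb7 A B := by simp [tpH, h]
    rw [t0, t1, t2, map_zero, map_zero]
    simp [W_Tri]
  have s4 : c = 4 → ∀ c' i' j' : ℕ, c' ≤ 5 → dgH c' i' j' = A + B →
      evH (7 ^ r) G c' i' j' = 2 * W_Tri r s c' i' j' 0 A B +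
        3 * W_Tri r s c' i' j' 0 (A + 1) (B - 1) + W_Tri r s c' i' j' 1 A B := by
    intro h c' i' j' hc' h'
    rw [hval c' i' j' hc' h', Fin.sum_univ_three]
    have t0 : (tpH c A B 0 : Fn7 (7 ^ r) (7 ^ s)) =
        (2 : ZMod 7) • bb7 A B + (3 : ZMod 7) • bb7 (A + 1) (B - 1) := by simp [tpH, h]
    have t1 : (tpH c A B 1 : Fn7 (7 ^ r) (7 ^ s)) = bb7 A B := by simp [tpH, h]
    have t2 : (tpH c A B 2 : Fn7 (7 ^ r) (7 ^ s)) = 0 := by simp [tpH, h]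
    rw [t0, t1, t2, map_zero, map_add, map_smul, map_smul]
    simp only [W_Tri, Pi.add_apply, Pi.smul_apply, Pi.zero_apply, add_zero, smul_eq_mul]
  have s5 : c = 5 → ∀ c' i' j' : ℕ, c' ≤ 5 → dgH c' i' j' = A + B →
      evH (7 ^ r) G c' i' j' = - W_Tri r s c' i' j' 0 A B + W_Tri r s c' i' j' 1 A B := by
    intro h c' i' j' hc' h'
    rw [hval c' i' j' hc' h', Fin.sum_univ_three]
    have t0 : (tpH c A B 0 : Fn7 (7 ^ r) (7 ^ s)) = - bb7 A B := by simp [tpH, h]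
    have t1 : (tpH c A B 1 : Fn7 (7 ^ r) (7 ^ s)) = bb7 A B := by simp [tpH, h]
    have t2 : (tpH c A B 2 : Fn7 (7 ^ r) (7 ^ s)) = 0 := by simp [tpH, h]
    rw [t0, t1, t2, map_zero, map_neg]
    simp [W_Tri]
  refine ⟨G, hG, ?_, ?_⟩
  · have hw := lw_Tri c hc
    rcases ab_Tri c hc with ⟨h0, h1, h2, -⟩ | ⟨h0, h1, h2, -⟩ | ⟨h0, h1, h2, -⟩ |
      ⟨h0, h1, h2, -⟩ | ⟨h0, h1, h2, -⟩ | ⟨h0, h1, h2, -⟩ <;> rw [h1] at hA <;> rw [h2] at hB
    · have hw' := hw.1 h0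
      rw [s0 (Or.inl h0) c i j hc hdg, hE c i j A B 0 hc hAr.1 hs hdg.symm (by omega), h0]
      decide
    · have hw' := hw.2.1 h0
      rw [s1 h0 c i j hc hdg, hE c i j A B 1 hc hAr.1 hs hdg.symm (by omega), h0]
      decide
    · have hw' := hw.2.2.1 h0
      rw [s0 (Or.inr h0) c i j hc hdg, hE c i j A B 0 hc hAr.1 hs hdg.symm (by omega), h0]
      decide
    · have hw' := hw.2.2.2.1 h0
      rw [s3 h0 c i j hc hdg, hE c i j A B 2 hc hAr.1 hs hdg.symm (by omega), h0]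
      decide
    · have hw' := hw.2.2.2.2.1 h0
      rw [s4 h0 c i j hc hdg, hE c i j A B 1 hc hAr.1 hs hdg.symm (by omega),
        hZ c i j A B 0 hc hAr.1 hs hdg.symm (Or.inl (by omega)),
        hZ c i j (A + 1) (B - 1) 0 hc (hAr.2 h0).1 (by omega) (by omega) (Or.inl (by omega)), h0]
      decide
    · have hw' := hw.2.2.2.2.2 h0
      rw [s5 h0 c i j hc hdg, hE c i j A B 1 hc hAr.1 hs hdg.symm (by omega),
        hZ c i j A B 0 hc hAr.1 hs hdg.symm (Or.inl (by omega)), h0]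
      decide
  · intro c' i' j' hc' hne
    rw [hdg, hrh]
    rcases lt_trichotomy (dgH c' i' j') (A + B) with h | h | h
    · exact Or.inl h
    · refine Or.inr ⟨h, ?_⟩
      by_contra hcon
      apply hne
      have hdg' : A + B = (aaH c' + i' + 7 * j') + (abH c' + i' + j') := by
        rw [← h, dg_Tri]
      have hrh' : rhH c' i' j' = abH c' + i' + j' := rfl
      rw [hrh'] at hcon
      have hw := lw_Tri c' hc'
      rcases ab_Tri c hc with ⟨h0, h1, h2, -⟩ | ⟨h0, h1, h2, -⟩ | ⟨h0, h1, h2, -⟩ |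
        ⟨h0, h1, h2, -⟩ | ⟨h0, h1, h2, -⟩ | ⟨h0, h1, h2, -⟩ <;> rw [h1] at hA <;> rw [h2] at hB
      · rw [s0 (Or.inl h0) c' i' j' hc' h]
        apply hZ c' i' j' A B 0 hc' hAr.1 hs h.symm
        rcases ab_Tri c' hc' with ⟨h0', h1', h2', -⟩ | ⟨h0', h1', h2', -⟩ | ⟨h0', h1', h2', -⟩ |
          ⟨h0', h1', h2', -⟩ | ⟨h0', h1', h2', -⟩ | ⟨h0', h1', h2', -⟩
        · have := hw.1 h0'; left; omega
        · exact Or.inr (hw.2.1 h0').2.1
        · have := hw.2.2.1 h0'; left; omega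
        · exact Or.inr (hw.2.2.2.1 h0').2.1
        · have := hw.2.2.2.2.1 h0'; left; omega
        · have := hw.2.2.2.2.2 h0'; left; omega
      · rw [s1 h0 c' i' j' hc' h]
        apply hZ c' i' j' A B 1 hc' hAr.1 hs h.symm
        rcases ab_Tri c' hc' with ⟨h0', h1', h2', -⟩ | ⟨h0', h1', h2', -⟩ | ⟨h0', h1', h2', -⟩ |
          ⟨h0', h1', h2', -⟩ | ⟨h0', h1', h2', -⟩ | ⟨h0', h1', h2', -⟩
        · exact Or.inr (hw.1 h0').2.1
        · have := hw.2.1 h0'; left; omega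
        · have := hw.2.2.1 h0'; left; omega
        · exact Or.inr (hw.2.2.2.1 h0').2.2
        · have := hw.2.2.2.2.1 h0'; left; omega
        · have := hw.2.2.2.2.2 h0'; left; omega
      · rw [s0 (Or.inr h0) c' i' j' hc' h]
        apply hZ c' i' j' A B 0 hc' hAr.1 hs h.symm
        rcases ab_Tri c' hc' with ⟨h0', h1', h2', -⟩ | ⟨h0', h1', h2', -⟩ | ⟨h0', h1', h2', -⟩ |
          ⟨h0', h1', h2', -⟩ | ⟨h0', h1', h2', -⟩ | ⟨h0', h1', h2', -⟩
        · have := hw.1 h0'; left; omega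
        · exact Or.inr (hw.2.1 h0').2.1
        · have := hw.2.2.1 h0'; left; omega
        · exact Or.inr (hw.2.2.2.1 h0').2.1
        · have := hw.2.2.2.2.1 h0'; left; omega
        · have := hw.2.2.2.2.2 h0'; left; omega
      · rw [s3 h0 c' i' j' hc' h]
        apply hZ c' i' j' A B 2 hc' hAr.1 hs h.symm
        rcases ab_Tri c' hc' with ⟨h0', h1', h2', -⟩ | ⟨h0', h1', h2', -⟩ | ⟨h0', h1', h2', -⟩ |
          ⟨h0', h1', h2', -⟩ | ⟨h0', h1', h2', -⟩ | ⟨h0', h1', h2', -⟩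
        · exact Or.inr (hw.1 h0').2.2
        · exact Or.inr (hw.2.1 h0').2.2
        · exact Or.inr (hw.2.2.1 h0').2.2
        · have := hw.2.2.2.1 h0'; left; omega
        · exact Or.inr (hw.2.2.2.2.1 h0').2.2
        · exact Or.inr (hw.2.2.2.2.2 h0').2.2
      · obtain ⟨hA1, hB1⟩ := hAr.2 h0
        rw [s4 h0 c' i' j' hc' h]
        by_cases hsp : c' = 2 ∧ i' + j' = B
        · have hw' := hw.2.2.1 hsp.1
          rw [hE c' i' j' A B 1 hc' hAr.1 hs h.symm (by omega),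
            hE c' i' j' A B 0 hc' hAr.1 hs h.symm (by omega),
            hZ c' i' j' (A + 1) (B - 1) 0 hc' hA1 (by omega) (by omega) (Or.inl (by omega)), hsp.1]
          decide
        · have k0 : B < i' + j' + lwH c' (0 : Fin 3).val ∨ qOH c' (0 : Fin 3).val (lwH c' (0 : Fin 3).val) = 0 := by
            rcases ab_Tri c' hc' with ⟨h0', h1', h2', -⟩ | ⟨h0', h1', h2', -⟩ | ⟨h0', h1', h2', -⟩ |
              ⟨h0', h1', h2', -⟩ | ⟨h0', h1', h2', -⟩ | ⟨h0', h1', h2', -⟩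
            · have := hw.1 h0'; left; omega
            · exact Or.inr (hw.2.1 h0').2.1
            · have := hw.2.2.1 h0'; left; omega
            · exact Or.inr (hw.2.2.2.1 h0').2.1
            · have := hw.2.2.2.2.1 h0'; left; omega
            · have := hw.2.2.2.2.2 h0'; left; omega
          have k1 : B < i' + j' + lwH c' (1 : Fin 3).val ∨ qOH c' (1 : Fin 3).val (lwH c' (1 : Fin 3).val) = 0 := by
            rcases ab_Tri c' hc' with ⟨h0', h1', h2', -⟩ | ⟨h0', h1', h2', -⟩ | ⟨h0', h1', h2', -⟩ |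
              ⟨h0', h1', h2', -⟩ | ⟨h0', h1', h2', -⟩ | ⟨h0', h1', h2', -⟩
            · exact Or.inr (hw.1 h0').2.1
            · have := hw.2.1 h0'; left; omega
            · have := hw.2.2.1 h0'; left; omega
            · exact Or.inr (hw.2.2.2.1 h0').2.2
            · have := hw.2.2.2.2.1 h0'; left; omega
            · have := hw.2.2.2.2.2 h0'; left; omega
          rw [hZ c' i' j' A B 0 hc' hAr.1 hs h.symm k0, hZ c' i' j' A B 1 hc' hAr.1 hs h.symm k1,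
            hZ c' i' j' (A + 1) (B - 1) 0 hc' hA1 (by omega) (by omega)
              (k0.imp (fun k => by omega) id)]
          norm_num
      · rw [s5 h0 c' i' j' hc' h]
        have k0 : B < i' + j' + lwH c' (0 : Fin 3).val ∨ qOH c' (0 : Fin 3).val (lwH c' (0 : Fin 3).val) = 0 := by
          rcases ab_Tri c' hc' with ⟨h0', h1', h2', -⟩ | ⟨h0', h1', h2', -⟩ | ⟨h0', h1', h2', -⟩ |
            ⟨h0', h1', h2', -⟩ | ⟨h0', h1', h2', -⟩ | ⟨h0', h1', h2', -⟩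
          · have := hw.1 h0'; left; omega
          · exact Or.inr (hw.2.1 h0').2.1
          · have := hw.2.2.1 h0'; left; omega
          · exact Or.inr (hw.2.2.2.1 h0').2.1
          · have := hw.2.2.2.2.1 h0'; left; omega
          · have := hw.2.2.2.2.2 h0'; left; omega
        have k1 : B < i' + j' + lwH c' (1 : Fin 3).val ∨ qOH c' (1 : Fin 3).val (lwH c' (1 : Fin 3).val) = 0 := by
          rcases ab_Tri c' hc' with ⟨h0', h1', h2', -⟩ | ⟨h0', h1', h2', -⟩ | ⟨h0', h1', h2', -⟩ |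
            ⟨h0', h1', h2', -⟩ | ⟨h0', h1', h2', -⟩ | ⟨h0', h1', h2', -⟩
          · exact Or.inr (hw.1 h0').2.1
          · have := hw.2.1 h0'; left; omega
          · have := hw.2.2.1 h0'; left; omega
          · exact Or.inr (hw.2.2.2.1 h0').2.2
          · have := hw.2.2.2.2.1 h0'; left; omega
          · have := hw.2.2.2.2.2 h0'; left; omega
        rw [hZ c' i' j' A B 0 hc' hAr.1 hs h.symm k0, hZ c' i' j' A B 1 hc' hAr.1 hs h.symm k1]
        norm_num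
    · exact absurd ((hI c' i' j' hc').1 h) hne

end Pool.Agent.Helper36.TH7
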